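import Pool.Agent.H33.FockD
import Pool.Agent.H33.Fock2

namespace Pool.Agent.Results.MP_d26497_an.Q1

open MeasureTheory Filter Topology InnerProductSpace Pool.Agent.H33.Fock
open scoped ComplexConjugate Real Nat

lemma mem_graph (w : ℂ × ℂ → ℂ) (p : BS × BS) : p ∈ graphT w ↔
    MemLp (fun z => w z * fn p.1 z) 2 mu ∧ ∀ g : BS,
      ∫ z, star (fn g z) * (w z * fn p.1 z) ∂mu = ⟪g, p.2⟫_ℂ := by
  simp only [graphT, Set.mem_ofPred_eq, inner_eq]

lemma g_add (w : ℂ × ℂ → ℂ) (p) (hp : p ∈ graphT w) (q) (hq : q ∈ graphT w) :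
    p + q ∈ graphT w := by
  rw [mem_graph] at *
  have e : (fun z => w z * fn (p + q).1 z) =ᵐ[mu] fun z => w z * fn p.1 z + w z * fn q.1 z := by
    filter_upwards [Lp.coeFn_add p.1.1 q.1.1] with z hz
    rw [← mul_add]
    exact congrArg _ hz
  refine ⟨(memLp_congr_ae e).mpr (hp.1.add hq.1), fun g => ?_⟩
  rw [Prod.snd_add, inner_add_right, ← hp.2, ← hq.2,
    ← integral_add (int_mul (fn_mem g) hp.1) (int_mul (fn_mem g) hq.1)]
  refine integral_congr_ae ?_
  filter_upwards [e] with z hz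
  rw [hz, mul_add]

lemma g_smul (w : ℂ × ℂ → ℂ) (a : ℂ) (p) (hp : p ∈ graphT w) : a • p ∈ graphT w := by
  rw [mem_graph] at *
  have e : (fun z => w z * fn (a • p).1 z) =ᵐ[mu] fun z => a * (w z * fn p.1 z) := by
    filter_upwards [Lp.coeFn_smul a p.1.1] with z hz
    rw [mul_left_comm]
    exact congrArg _ hz
  refine ⟨(memLp_congr_ae e).mpr (hp.1.const_mul a), fun g => ?_⟩
  have k : ⟪g, a • p.2⟫_ℂ = a * ⟪g, p.2⟫_ℂ := inner_smul_right (𝕜 := ℂ) g p.2 a
  rw [Prod.smul_snd, k, ← hp.2, ← integral_const_mul]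
  refine integral_congr_ae ?_
  filter_upwards [e] with z hz
  rw [hz, mul_left_comm]

lemma wt_v (k l : ℕ) (i : ℕ × ℕ) : MemLp (fun z => wt k l z * fn (v i) z) 2 mu := by
  refine (memLp_congr_ae ?_).mpr (wt_mon k l i)
  filter_upwards [fn_v i] with z hz
  rw [hz]

lemma eig (k l : ℕ) (i : ℕ × ℕ) :
    (v i, (((i.1 + k)! * (i.2 + l)! / (i.1 ! * i.2 !) : ℝ) : ℂ) • v i) ∈ graphT (wt k l) := by
  rw [mem_graph]
  refine ⟨wt_v k l i, fun g => ?_⟩
  have := congrArg conj (key3 g i k l)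
  have k1 : conj ⟪v i, g⟫_ℂ = ⟪g, v i⟫_ℂ := inner_conj_symm (𝕜 := ℂ) g (v i)
  have k2 : ∀ a : ℂ, ⟪g, a • v i⟫_ℂ = a * ⟪g, v i⟫_ℂ := fun a => inner_smul_right (𝕜 := ℂ) g _ a
  rw [map_mul, Complex.conj_ofReal, k1, ← integral_conj] at this
  rw [k2, ← this]
  congr 1
  ext z
  simp only [wt, RCLike.star_def, map_mul, Complex.conj_ofReal, Complex.conj_conj]
  ring

lemma lam (i : ℕ × ℕ) : ((i.1 + 1)! * (i.2 + 1)! / (i.1 ! * i.2 !) : ℝ) = (i.1 + 1) * (i.2 + 1) := by
  rw [Nat.factorial_succ, Nat.factorial_succ]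
  push_cast
  field_simp

lemma pos : CompactResolvent (closure (graphT (wt 1 1))) := by
  refine pos_case basis (fun i => (((i.1 + 1) * (i.2 + 1) : ℝ) : ℂ)) (fun i => ?_) ?_ _
    (by simpa using g_smul _ 0 _ (eig 1 1 0)) (g_add _) (g_smul _) (fun i => ?_) (fun p hp i => ?_)
  · rw [Complex.norm_real, Real.norm_of_nonneg (by positivity)]
    nlinarith [i.1.cast_nonneg (α := ℝ), i.2.cast_nonneg (α := ℝ)]
  · have h1 : Tendsto (fun i : ℕ × ℕ => ((i.1 + 1) * (i.2 + 1) : ℝ)) cofinite atTop := by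
      rw [tendsto_atTop]
      intro B
      obtain ⟨N, hN⟩ := exists_nat_ge B
      rw [eventually_cofinite]
      refine (Set.finite_Iic (N, N)).subset fun i hi => ?_
      simp only [Set.mem_ofPred_eq, not_le] at hi
      have a1 := i.1.cast_nonneg (α := ℝ)
      have a2 := i.2.cast_nonneg (α := ℝ)
      have b1 : (i.1 : ℝ) ≤ N := by nlinarith
      have b2 : (i.2 : ℝ) ≤ N := by nlinarith
      exact ⟨by exact_mod_cast b1, by exact_mod_cast b2⟩
    have := (Complex.continuous_ofReal.tendsto _).comp h1.inv_tendsto_atTop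
    simp only [Complex.ofReal_zero] at this
    refine this.congr fun i => ?_
    simp
  · rw [basis_apply, ← lam]
    exact eig 1 1 i
  · rw [basis_apply, ← lam, ← key3, ((mem_graph _ _).mp hp).2]

lemma neg : ¬ CompactResolvent (closure (graphT (fun z => wt 1 1 z - wt 1 0 z))) := by
  refine neg_case (fun a => v (a, 0)) (v_on.comp _ fun a b h => (Prod.ext_iff.mp h).1) _
    fun a => subset_closure ?_
  have h1 := (mem_graph _ _).mp (eig 1 1 (a, 0))
  have h2 := (mem_graph _ _).mp (eig 1 0 (a, 0))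
  rw [mem_graph]
  simp only [sub_mul, mul_sub]
  refine ⟨h1.1.sub h2.1, fun g => ?_⟩
  rw [integral_sub (int_mul (fn_mem g) h1.1) (int_mul (fn_mem g) h2.1), h1.2, h2.2]
  simp

open Pool.Agent.H33 in
theorem result :
    FockD.CompactResolvent (closure (FockD.graphT (fun z => z.1 * conj z.1 * (z.2 * conj z.2)))) ∧
    ¬ FockD.CompactResolvent (closure (FockD.graphT
      (fun z => z.1 * conj z.1 * (z.2 * conj z.2) + -(z.1 * conj z.1)))) := by
  have e1 : (fun z : ℂ × ℂ => z.1 * conj z.1 * (z.2 * conj z.2)) = wt 1 1 := by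
    ext z
    simp [wt, Complex.mul_conj']
  have e2 : (fun z : ℂ × ℂ => z.1 * conj z.1 * (z.2 * conj z.2) + -(z.1 * conj z.1)) =
      fun z => wt 1 1 z - wt 1 0 z := by
    ext z
    simp [wt, Complex.mul_conj', sub_eq_add_neg]
  rw [e1, e2]
  exact ⟨pos, neg⟩

end Pool.Agent.Results.MP_d26497_an.Q1
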